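import Mathlib
import Pool.Agent.V11172.RsFinal

/-!
# MP_7fcbce_co, Q1: monochromatic progressions in the Rudin–Shapiro sequence

For every `d ≥ 23` one has `A_r(d) ≤ (d + 7) / 2`, with equality if and only if `d = 2 ^ k - 1`
for some odd `k ≥ 5`.
-/

namespace Pool.Agent.Results.MP_7fcbce_co.LinearBound

open Pool.Agent.V11172.Rs

/-- `r_n`: the parity of the number of positions `i` such that the binary digits `i` and `i + 1`
of `n` are both one. -/
def rs (n : ℕ) : ℕ := ((Finset.range n).filter fun i => n.testBit i ∧ n.testBit (i + 1)).card % 2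

/-- `A_r(n, d)`: the supremum of the lengths `l ≥ 1` of the monochromatic progressions of
difference `d` which start at `n`. -/
noncomputable def AStart (n d : ℕ) : ℕ∞ :=
  ⨆ (l : ℕ) (_ : 1 ≤ l ∧ ∀ i < l, rs (n + i * d) = rs n), (l : ℕ∞)

/-- `A_r(d)`: the supremum over all starting points. -/
noncomputable def A (d : ℕ) : ℕ∞ := ⨆ n : ℕ, AStart n d

lemma rs_eq_iff (a b : ℕ) : rs a = rs b ↔ r a = r b := by
  unfold rs r e11
  rw [ZMod.natCast_eq_natCast_iff']

lemma A_le {d B : ℕ} (h : ∀ n, ¬ Mono n d (B + 1)) : A d ≤ (B : ℕ∞) := by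
  unfold A AStart
  refine iSup_le fun n => iSup_le fun l => iSup_le fun hl => ?_
  rw [Nat.cast_le]
  by_contra hlt
  apply h n
  exact ⟨r n, fun i hi => (rs_eq_iff _ _).1 (hl.2 i (by omega))⟩

lemma le_A {n d L : ℕ} (hL : 1 ≤ L) (h : Mono n d L) : (L : ℕ∞) ≤ A d := by
  obtain ⟨c, hc⟩ := h
  have h1 : ((L : ℕ) : ℕ∞) ≤ AStart n d := by
    unfold AStart
    refine le_iSup_of_le L (le_iSup_of_le ⟨hL, fun i hi => ?_⟩ le_rfl)
    rw [rs_eq_iff, hc i hi]
    have h0 := hc 0 (by omega)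
    rw [zero_mul, add_zero] at h0
    exact h0.symm
  exact h1.trans (le_iSup (fun n => AStart n d) n)

/-- **Q1 of MP_7fcbce_co.** -/
theorem result : ∀ d : ℕ, 23 ≤ d →
    2 * A d ≤ (d : ℕ∞) + 7 ∧
      (2 * A d = (d : ℕ∞) + 7 ↔ ∃ k, 5 ≤ k ∧ Odd k ∧ d = 2 ^ k - 1) := by
  intro d hd
  -- the bound with strict inequality from a bound on lengths
  have strict : ∀ B : ℕ, 2 * B < d + 7 → (∀ n, ¬ Mono n d (B + 1)) → 2 * A d < (d : ℕ∞) + 7 := by
    intro B hB h
    calc 2 * A d ≤ 2 * (B : ℕ∞) := mul_le_mul_right (A_le h) 2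
      _ = ((2 * B : ℕ) : ℕ∞) := by push_cast; rfl
      _ < ((d + 7 : ℕ) : ℕ∞) := by exact_mod_cast hB
      _ = (d : ℕ∞) + 7 := by push_cast; rfl
  by_cases hk : ∃ k, 5 ≤ k ∧ Odd k ∧ d = 2 ^ k - 1
  · have heq : 2 * A d = (d : ℕ∞) + 7 := by
      obtain ⟨k, hk5, hko, rfl⟩ := hk
      obtain ⟨K, rfl⟩ : ∃ K, k = K + 1 := ⟨k - 1, by omega⟩
      have hKe : K % 2 = 0 := by
        have := Nat.odd_iff.1 hko
        omega
      have hp : 2 ^ (K + 1) = 2 * 2 ^ K := by ring
      have hpos : 0 < 2 ^ K := by positivity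
      have h1 : A (2 ^ (K + 1) - 1) ≤ ((2 ^ K + 3 : ℕ) : ℕ∞) :=
        A_le (fun n => minusC (K := K) (by omega) (Or.inl ⟨hKe, rfl⟩))
      have h2 : ((2 ^ K + 3 : ℕ) : ℕ∞) ≤ A (2 ^ (K + 1) - 1) :=
        le_A (by omega) (long_even K (by omega) hKe)
      rw [le_antisymm h1 h2]
      have h3 : 2 * (2 ^ K + 3) = (2 ^ (K + 1) - 1) + 7 := by omega
      exact_mod_cast h3
    exact ⟨heq.le, fun _ => hk, fun _ => heq⟩
  · have hlt : 2 * A d < (d : ℕ∞) + 7 := by
      rcases Nat.even_or_odd' d with ⟨e, he | he⟩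
      · subst he
        apply strict (max 15 ((e + 7) / 2)) (by omega)
        intro n hm
        obtain ⟨m, hm2⟩ := half hm
        exact allA e (by omega) m (hm2.mono (by omega))
      · by_cases h1 : ∃ k, d = 2 ^ k - 1
        · obtain ⟨k, hk1⟩ := h1
          have hk5 : 4 < k := by
            by_contra hlt
            have : 2 ^ k ≤ 2 ^ 4 := Nat.pow_le_pow_right (by norm_num) (by omega)
            omega
          have hke : ¬ Odd k := fun h => hk ⟨k, hk5, h, hk1⟩
          obtain ⟨K, rfl⟩ : ∃ K, k = K + 1 := ⟨k - 1, by omega⟩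
          have hKo : K % 2 = 1 := by
            rw [Nat.odd_iff] at hke
            omega
          have hp : 2 ^ (K + 1) = 2 * 2 ^ K := by ring
          subst hk1
          apply strict (2 ^ K + 1) (by omega)
          intro n
          exact minusC (K := K) (by omega) (Or.inr ⟨hKo, rfl⟩)
        · push Not at h1
          apply strict ((d + 7) / 2 - 1) (by omega)
          intro n hm
          exact oddA (by omega) hd h1 (hm.mono (by omega))
    exact ⟨hlt.le, fun h => absurd h hlt.ne, fun h => absurd h hk⟩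

end Pool.Agent.Results.MP_7fcbce_co.LinearBound
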